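import Pool.Agent.Lib_helper40.N12C.Dat

/-!
# N = 12: the trivial relations
-/

set_option autoImplicit false
set_option maxRecDepth 100000

namespace Pool.Agent.N12C

open Pool.Agent.KC72 Pool.Agent.MC

theorem c12_t0 : blk (cT c12 c12_t) c12.T 25 0 = true := by decide +kernel

theorem c12_t1 : blk (cT c12 c12_t) c12.T 25 1 = true := by decide +kernel

theorem c12_t2 : blk (cT c12 c12_t) c12.T 25 2 = true := by decide +kernel

theorem c12_t3 : blk (cT c12 c12_t) c12.T 25 3 = true := by decide +kernel

theorem c12_t4 : blk (cT c12 c12_t) c12.T 25 4 = true := by decide +kernel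

theorem c12_t5 : blk (cT c12 c12_t) c12.T 25 5 = true := by decide +kernel

theorem c12_t6 : blk (cT c12 c12_t) c12.T 25 6 = true := by decide +kernel

theorem c12_t7 : blk (cT c12 c12_t) c12.T 25 7 = true := by decide +kernel

theorem c12_t8 : blk (cT c12 c12_t) c12.T 25 8 = true := by decide +kernel

theorem c12_t9 : blk (cT c12 c12_t) c12.T 25 9 = true := by decide +kernel

theorem c12_t10 : blk (cT c12 c12_t) c12.T 25 10 = true := by decide +kernel

theorem c12_t11 : blk (cT c12 c12_t) c12.T 25 11 = true := by decide +kernel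

theorem c12_t12 : blk (cT c12 c12_t) c12.T 25 12 = true := by decide +kernel

theorem c12_t13 : blk (cT c12 c12_t) c12.T 25 13 = true := by decide +kernel

theorem c12_t14 : blk (cT c12 c12_t) c12.T 25 14 = true := by decide +kernel

theorem c12_t' : ∀ k < 15, blk (cT c12 c12_t) c12.T 25 k = true
  | 0, _ => c12_t0
  | 1, _ => c12_t1
  | 2, _ => c12_t2
  | 3, _ => c12_t3
  | 4, _ => c12_t4
  | 5, _ => c12_t5
  | 6, _ => c12_t6
  | 7, _ => c12_t7
  | 8, _ => c12_t8
  | 9, _ => c12_t9
  | 10, _ => c12_t10
  | 11, _ => c12_t11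
  | 12, _ => c12_t12
  | 13, _ => c12_t13
  | 14, _ => c12_t14
  | k + 15, h => absurd h (by omega)

end Pool.Agent.N12C
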