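import Pool.Agent.Lib_helper40.N12C.Q
import Pool.Agent.Lib_helper40.N12C.T

/-!
# N = 12: all checks
-/

set_option autoImplicit false
set_option maxRecDepth 100000

namespace Pool.Agent.N12C

open Pool.Agent.KC72 Pool.Agent.MC

theorem c12_0 : Num c12 c12_t := by decide +kernel

theorem c12_om : xm c12.kb c12.ko (c12.m * c12.N) c12.Om = true := by decide +kernel

theorem c12_b : cB c12 = true := by decide +kernel

theorem c12_r0 : blk (cR c12) c12.rels 60 0 = true := by decide +kernel

theorem c12_r1 : blk (cR c12) c12.rels 60 1 = true := by decide +kernel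

theorem c12_r2 : blk (cR c12) c12.rels 60 2 = true := by decide +kernel

theorem c12_r3 : blk (cR c12) c12.rels 60 3 = true := by decide +kernel

theorem c12_r4 : blk (cR c12) c12.rels 60 4 = true := by decide +kernel

theorem c12_r' : ∀ k < 5, blk (cR c12) c12.rels 60 k = true
  | 0, _ => c12_r0
  | 1, _ => c12_r1
  | 2, _ => c12_r2
  | 3, _ => c12_r3
  | 4, _ => c12_r4
  | k + 5, h => absurd h (by omega)

theorem c12_g : allI (fun c g => cG c12.DG c12_t.B c12_t.MA c12_t.P2 c12_t.MB c g) c12.G 0 = true := by decide +kernel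

theorem c12_g' : c12.toCert.chk3' = true := by decide +kernel

theorem c12_k1 : (c12.cls.take c12.m).map (prF c12_t.p c12.n c12.r) = c12_t.PR := by decide +kernel

theorem c12_k2 : (c12.cls.take c12.m).map (pkw (Int.ofNat c12_t.Z) (Int.ofNat (Nat.pow c12_t.Z c12.n)) c12.r) = c12_t.PM := by decide +kernel

theorem c12_k3 : c12_t.P2.map (fun x => pmb (Int.ofNat c12_t.B) x.1 x.2 (c12.cls.take c12.m)) = c12_t.MB := by decide +kernel

theorem c12_e : c12.cls.all (fun e => bdE c12_t.MA c12.n e.1.2 && bdE c12_t.MA c12.n e.2.2) = true := by decide +kernel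

theorem c12_xq : c12_t.XQ.all (fun X => X.all (xm c12_t.a c12_t.d c12_t.S)) = true := by decide +kernel

theorem c12_xt : c12_t.XT.all (fun X => X.all (xm c12_t.a' c12_t.d' c12_t.K)) = true := by decide +kernel

/-- all checks -/
theorem c12_ok : ROk c12 :=
  rOk_of (A := c12_t) (l4 := 60) (n4 := 5) (lQ := 25) (nQ := 18) (lT := 25) (nT := 15) c12_0 c12_om c12_b
    (by decide) (by decide +kernel) c12_r' c12_g c12_g' ⟨c12_k1, c12_k2, c12_k3⟩ c12_e c12_xq c12_xt (by decide) (by decide +kernel) c12_q'
    (by decide) (by decide +kernel) c12_t'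

end Pool.Agent.N12C
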