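import Pool.Agent.Lib_helper40.N12C.Dat

/-!
# N = 12: the coordinates
-/

set_option autoImplicit false
set_option maxRecDepth 100000

namespace Pool.Agent.N12C

open Pool.Agent.KC72 Pool.Agent.MC

theorem c12_q0 : blk (cQ c12 c12_t) c12.Q 25 0 = true := by decide +kernel

theorem c12_q1 : blk (cQ c12 c12_t) c12.Q 25 1 = true := by decide +kernel

theorem c12_q2 : blk (cQ c12 c12_t) c12.Q 25 2 = true := by decide +kernel

theorem c12_q3 : blk (cQ c12 c12_t) c12.Q 25 3 = true := by decide +kernel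

theorem c12_q4 : blk (cQ c12 c12_t) c12.Q 25 4 = true := by decide +kernel

theorem c12_q5 : blk (cQ c12 c12_t) c12.Q 25 5 = true := by decide +kernel

theorem c12_q6 : blk (cQ c12 c12_t) c12.Q 25 6 = true := by decide +kernel

theorem c12_q7 : blk (cQ c12 c12_t) c12.Q 25 7 = true := by decide +kernel

theorem c12_q8 : blk (cQ c12 c12_t) c12.Q 25 8 = true := by decide +kernel

theorem c12_q9 : blk (cQ c12 c12_t) c12.Q 25 9 = true := by decide +kernel

theorem c12_q10 : blk (cQ c12 c12_t) c12.Q 25 10 = true := by decide +kernel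

theorem c12_q11 : blk (cQ c12 c12_t) c12.Q 25 11 = true := by decide +kernel

theorem c12_q12 : blk (cQ c12 c12_t) c12.Q 25 12 = true := by decide +kernel

theorem c12_q13 : blk (cQ c12 c12_t) c12.Q 25 13 = true := by decide +kernel

theorem c12_q14 : blk (cQ c12 c12_t) c12.Q 25 14 = true := by decide +kernel

theorem c12_q15 : blk (cQ c12 c12_t) c12.Q 25 15 = true := by decide +kernel

theorem c12_q16 : blk (cQ c12 c12_t) c12.Q 25 16 = true := by decide +kernel

theorem c12_q17 : blk (cQ c12 c12_t) c12.Q 25 17 = true := by decide +kernel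

theorem c12_q' : ∀ k < 18, blk (cQ c12 c12_t) c12.Q 25 k = true
  | 0, _ => c12_q0
  | 1, _ => c12_q1
  | 2, _ => c12_q2
  | 3, _ => c12_q3
  | 4, _ => c12_q4
  | 5, _ => c12_q5
  | 6, _ => c12_q6
  | 7, _ => c12_q7
  | 8, _ => c12_q8
  | 9, _ => c12_q9
  | 10, _ => c12_q10
  | 11, _ => c12_q11
  | 12, _ => c12_q12
  | 13, _ => c12_q13
  | 14, _ => c12_q14
  | 15, _ => c12_q15
  | 16, _ => c12_q16
  | 17, _ => c12_q17
  | k + 18, h => absurd h (by omega)

end Pool.Agent.N12C
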